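import Pool.Agent.K1H34.Had2.Stmts2
import Pool.Agent.Y342.SK.Sym

/-! Cores of order `v ^ 2` for all `v` which are `-1` modulo a tiny power of two. -/

set_option autoImplicit false

namespace Pool.Agent.K1H34.Had2

open Pool.Agent.K1H34.Had (NN growth)

theorem t_CORE2 : S_CORE2 := by
  obtain ⟨C, hC, h⟩ := Pool.Agent.Y342.SK.main_skew
  obtain ⟨n₀, hgr⟩ := growth C hC
  refine ⟨n₀, fun n hn => ?_⟩
  obtain ⟨m, hm, hN⟩ := hgr n hn
  obtain ⟨k, hk⟩ : ∃ k, k = C ^ (m + 1) := ⟨_, rfl⟩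
  rw [← hk] at hN
  have hk1 : 1 ≤ k := by rw [hk]; exact Nat.one_le_pow _ _ (by omega)
  refine ⟨2 ^ k, ?_, ?_, fun v hv hd => ?_⟩
  · calc 2 = 2 ^ 1 := by norm_num
      _ ≤ 2 ^ k := Nat.pow_le_pow_right (by norm_num) hk1
  · refine le_trans ?_ hN
    unfold NN
    push_cast
    refine pow_le_pow_right₀ (by norm_num) ?_
    rw [pow_add]
    have : 1 ≤ 2 ^ k := Nat.one_le_two_pow
    omega
  · obtain ⟨S, hS⟩ := Pool.Agent.Y342.SK.core_of h (hv.trans hm) (by rw [hk]) hd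
    obtain ⟨B, hB⟩ := Pool.Agent.Y342.SK.sym_core hS 0
    exact ⟨B, hB⟩

end Pool.Agent.K1H34.Had2
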