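import Pool.Agent.K1H34.Had2.Stmts

/-!
# Partial Hadamard matrices with a power saving: assembly
-/

set_option autoImplicit false

namespace Pool.Agent.K1H34.Had2

open Filter
open Pool.Agent.K1H34.Had (PHad NN growth)
open Pool.Agent.H108R3.Had (PUk)
open Pool.Agent.TH394 (HadOrder)

theorem sq_mod_four {q : ℕ} (hq : q.Prime) (h3 : 3 ≤ q) : q ^ 2 % 4 = 1 := by
  have h2 : q % 2 = 1 := by
    rcases hq.eq_two_or_odd with h | h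
    · omega
    · exact h
  have h4 : q % 4 = 1 ∨ q % 4 = 3 := by omega
  rcases h4 with h | h <;> simp [Nat.pow_mod, h]

theorem t_GOAL (hTWO : S_TWO) (hORD : S_ORDER) (hSQ : S_SQ) (hNUM : S_NUM) : S_GOAL := by
  obtain ⟨d, hd0, hd1, Z₀, hZ0, hsq⟩ := hSQ
  obtain ⟨c, hc, n1, hnum⟩ := hNUM d hd0 hd1 Z₀ hZ0
  obtain ⟨n2, hord⟩ := hORD
  obtain ⟨C, hC, hpu⟩ := Pool.Agent.W851.Had.main_pu
  obtain ⟨n3, hgr⟩ := growth C hC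
  have hx : ∀ᶠ n : ℕ in atTop, (2 : ℝ) ≤ (n : ℝ) ^ (1 / 40 : ℝ) :=
    ((tendsto_rpow_atTop (by norm_num : (0 : ℝ) < 1 / 40)).comp
      tendsto_natCast_atTop_atTop).eventually_ge_atTop 2
  obtain ⟨n4, h4⟩ := eventually_atTop.1 hx
  refine ⟨c, hc, n1 + n2 + n3 + n4 + 2, fun n hn h4n => ?_⟩
  have hx2 := h4 n (by omega)
  have hn1 : (1 : ℝ) ≤ n := by exact_mod_cast (by omega : 1 ≤ n)
  obtain ⟨x, hxdef⟩ : ∃ x, x = (n : ℝ) ^ (1 / 40 : ℝ) := ⟨_, rfl⟩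
  rw [← hxdef] at hx2
  -- gadgets
  obtain ⟨m0, hm0, hNL⟩ := hgr n (by omega)
  obtain ⟨k, hk⟩ : ∃ k, k = C ^ (m0 + 1) := ⟨_, rfl⟩
  rw [← hk] at hNL
  have hPU : ∀ s ≤ n, PUk k s := fun s hs => hpu m0 s k (hs.trans hm0) (by rw [hk])
  have hN1 : 1 ≤ NN k := by unfold NN; exact Nat.one_le_two_pow
  -- the first prime
  obtain ⟨q₁, hq1, hq1l, hq1u⟩ := Nat.exists_prime_lt_and_le_two_mul ⌈x⌉₊ (by
    have : 0 < ⌈x⌉₊ := Nat.ceil_pos.2 (by linarith)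
    omega)
  have hq1l' : x ≤ q₁ := (Nat.le_ceil x).trans (by exact_mod_cast hq1l.le)
  have hq1u' : (q₁ : ℝ) ≤ 3 * x := by
    have h1 : (q₁ : ℝ) ≤ 2 * (⌈x⌉₊ : ℝ) := by exact_mod_cast hq1u
    have h2 : (⌈x⌉₊ : ℝ) < x + 1 := Nat.ceil_lt_add_one (by linarith)
    linarith
  have hq13 : 3 ≤ q₁ := by
    have h1 : (2 : ℝ) ≤ ⌈x⌉₊ := hx2.trans (Nat.le_ceil x)
    have h2 : 2 ≤ ⌈x⌉₊ := by exact_mod_cast h1
    omega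
  -- the order
  obtain ⟨y, hy⟩ : ∃ y, y = ⌈(n : ℝ) ^ (7 / 10 : ℝ)⌉₊ := ⟨_, rfl⟩
  have hpow : (1 : ℝ) ≤ (n : ℝ) ^ (7 / 10 : ℝ) := Real.one_le_rpow hn1 (by norm_num)
  have hyl : (n : ℝ) ^ (7 / 10 : ℝ) ≤ y := by rw [hy]; exact Nat.le_ceil _
  have hyu : (y : ℝ) ≤ 2 * (n : ℝ) ^ (7 / 10 : ℝ) := by
    have h2 : (⌈(n : ℝ) ^ (7 / 10 : ℝ)⌉₊ : ℝ) < (n : ℝ) ^ (7 / 10 : ℝ) + 1 :=
      Nat.ceil_lt_add_one (by linarith)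
    rw [hy]; linarith
  have hy35 : (n : ℝ) ^ (3 / 5 : ℝ) ≤ y :=
    (Real.rpow_le_rpow_of_exponent_le hn1 (by norm_num)).trans hyl
  obtain ⟨h, hH, hh4, hhn, hhl, hhu⟩ := hord n k y (by omega) h4n hNL hy35
  -- the second prime
  obtain ⟨Z, hZ, hZq⟩ := hnum n (by omega) (NN k) q₁ y hN1 hNL (by rw [← hxdef]; exact hq1l')
    (by rw [← hxdef]; exact hq1u') hyl hyu h hhl hhu
  obtain ⟨q, hq, hq3, hqu, hql⟩ := hsq Z hZ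
  obtain ⟨hlt, hbd, hrows⟩ := hZq q hql hqu
  have hcop : (q₁ ^ 2).Coprime (q ^ 2) :=
    Nat.Coprime.pow _ _ ((Nat.coprime_primes hq1 hq).2 (by omega))
  refine ⟨q₁ ^ 2 * q ^ 2 * h, ?_, ?_⟩
  · push_cast
    exact hrows
  · exact hTWO k (q₁ ^ 2) (q ^ 2) h n (hq1.isPrimePow.pow (by norm_num)) (sq_mod_four hq1 hq13)
      (hq.isPrimePow.pow (by norm_num)) (sq_mod_four hq hq3) hcop
      (Nat.pow_le_pow_left hlt.le 2) hPU hH hh4 hhn hbd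

end Pool.Agent.K1H34.Had2
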