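import Pool.Agent.K1H34.Had2.Stmts2
import Pool.Agent.K1H34.Had2.Main

/-!
# Partial Hadamard matrices with `n - n ^ (6/7) (log n) ^ 2` rows: assembly
-/

set_option autoImplicit false

namespace Pool.Agent.K1H34.Had2

open Filter
open Pool.Agent.K1H34.Had (PHad NN growth)
open Pool.Agent.H108R3.Had (PUk)
open Pool.Agent.TH394 (HadOrder)

theorem sq_mod_four' {a : ℕ} (h : a % 2 = 1) : a ^ 2 % 4 = 1 := by
  have h4 : a % 4 = 1 ∨ a % 4 = 3 := by omega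
  rcases h4 with h | h <;> simp [Nat.pow_mod, h]

theorem t_GOAL2 (hTWO : S_TWO2) (hORD : S_ORDER2) (hCORE : S_CORE2) (hNUM : S_NUM2) : S_GOAL2 := by
  obtain ⟨n1, hnum⟩ := hNUM
  obtain ⟨n2, hord⟩ := hORD
  obtain ⟨n5, hcore⟩ := hCORE
  obtain ⟨C, hC, hpu⟩ := Pool.Agent.W851.Had.main_pu
  obtain ⟨n3, hgr⟩ := growth C hC
  have hx : ∀ᶠ n : ℕ in atTop, (3 : ℝ) ≤ (n : ℝ) ^ (1 / 14 : ℝ) :=
    ((tendsto_rpow_atTop (by norm_num : (0 : ℝ) < 1 / 14)).comp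
      tendsto_natCast_atTop_atTop).eventually_ge_atTop 3
  obtain ⟨n4, h4⟩ := eventually_atTop.1 hx
  refine ⟨n1 + n2 + n3 + n4 + n5 + 2, fun n hn h4n => ?_⟩
  have hx2 := h4 n (by omega)
  have hn1 : (1 : ℝ) ≤ n := by exact_mod_cast (by omega : 1 ≤ n)
  obtain ⟨x, hxdef⟩ : ∃ x, x = (n : ℝ) ^ (1 / 14 : ℝ) := ⟨_, rfl⟩
  rw [← hxdef] at hx2
  -- gadgets
  obtain ⟨m0, hm0, hNL⟩ := hgr n (by omega)
  obtain ⟨k, hk⟩ : ∃ k, k = C ^ (m0 + 1) := ⟨_, rfl⟩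
  rw [← hk] at hNL
  have hPU : ∀ s ≤ n, PUk k s := fun s hs => hpu m0 s k (hs.trans hm0) (by rw [hk])
  have hN1 : 1 ≤ NN k := by unfold NN; exact Nat.one_le_two_pow
  obtain ⟨t, ht2, htL, hcor⟩ := hcore n (by omega)
  -- the prime
  obtain ⟨b, hb, hbl, hbu⟩ := Nat.exists_prime_lt_and_le_two_mul ⌈x⌉₊ (by
    have : 0 < ⌈x⌉₊ := Nat.ceil_pos.2 (by linarith)
    omega)
  have hbl' : x ≤ b := (Nat.le_ceil x).trans (by exact_mod_cast hbl.le)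
  have hbu' : (b : ℝ) ≤ 3 * x := by
    have h1 : (b : ℝ) ≤ 2 * (⌈x⌉₊ : ℝ) := by exact_mod_cast hbu
    have h2 : (⌈x⌉₊ : ℝ) < x + 1 := Nat.ceil_lt_add_one (by linarith)
    linarith
  have hb3 : 3 ≤ b := by
    have h1 : (3 : ℝ) ≤ ⌈x⌉₊ := hx2.trans (Nat.le_ceil x)
    have h2 : 3 ≤ ⌈x⌉₊ := by exact_mod_cast h1
    omega
  -- the order
  obtain ⟨y, hy⟩ : ∃ y, y = ⌈(n : ℝ) ^ (4 / 7 : ℝ)⌉₊ := ⟨_, rfl⟩
  have hpow : (1 : ℝ) ≤ (n : ℝ) ^ (4 / 7 : ℝ) := Real.one_le_rpow hn1 (by norm_num)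
  have hyl : (n : ℝ) ^ (4 / 7 : ℝ) ≤ y := by rw [hy]; exact Nat.le_ceil _
  have hyu : (y : ℝ) ≤ (n : ℝ) ^ (4 / 7 : ℝ) + 1 := by
    have h2 : (⌈(n : ℝ) ^ (4 / 7 : ℝ)⌉₊ : ℝ) < (n : ℝ) ^ (4 / 7 : ℝ) + 1 :=
      Nat.ceil_lt_add_one (by linarith)
    rw [hy]; linarith
  have hy35 : (n : ℝ) ^ (1 / 2 : ℝ) ≤ y :=
    (Real.rpow_le_rpow_of_exponent_le hn1 (by norm_num)).trans hyl
  obtain ⟨h, hH, hh4, hhn, hhl, hhu⟩ := hord n k y (by omega) h4n hNL hy35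
  -- the number `a`
  obtain ⟨a, ha3, han, hKa, hba, hbd, hrows⟩ := hnum n (by omega) (NN k) (2 ^ t) b h hN1 hNL
    Nat.one_le_two_pow (by exact_mod_cast htL) hb (by rw [← hxdef]; exact hbl')
    (by rw [← hxdef]; exact hbu') (by linarith) (by linarith)
  have hodd : a % 2 = 1 := by
    have h2 : 2 ∣ a + 1 := dvd_trans (dvd_pow_self 2 (by omega)) hKa
    omega
  have hcop : (a ^ 2).Coprime (b ^ 2) :=
    Nat.Coprime.pow _ _ ((Nat.Prime.coprime_iff_not_dvd hb).2 hba).symm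
  have ha5 : 5 ≤ a ^ 2 := by nlinarith
  have hb5 : 5 ≤ b ^ 2 := by nlinarith
  have hb4 := sq_mod_four hb hb3
  refine ⟨a ^ 2 * b ^ 2 * h, ?_, ?_⟩
  · push_cast
    exact hrows
  · exact hTWO k (a ^ 2) (b ^ 2) h n (hcor a han hKa) ha5 (sq_mod_four' hodd)
      (Pool.Agent.Y341.Had.paley_core (hb.isPrimePow.pow (by norm_num)) hb4) hb5 hb4 hcop hPU hH
      hh4 hhn hbd

end Pool.Agent.K1H34.Had2
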