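import Pool.Agent.K1H34.Had2.Stmts2
import Pool.Agent.K1H34.Had.PAP

/-! A Paley order in a residue class modulo a tiny power of two. -/

set_option autoImplicit false

namespace Pool.Agent.K1H34.Had2

open Filter
open Pool.Agent.K1H34.Had (NN prime_ap)
open Pool.Agent.TH394 (HadOrder)

theorem t_ORDER2 : S_ORDER2 := by
  obtain ⟨y0, hap⟩ := prime_ap 1 2
  have hL : ∀ᶠ n : ℕ in atTop, (8 : ℝ) ≤ Real.log n :=
    (Real.tendsto_log_atTop.comp tendsto_natCast_atTop_atTop).eventually_ge_atTop 8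
  obtain ⟨n1, hn1⟩ := eventually_atTop.1 hL
  refine ⟨n1 + y0 ^ 2 + 2, fun n k y hn h4n hN hy => ?_⟩
  obtain ⟨L, hLdef⟩ : ∃ L, L = Real.log n := ⟨_, rfl⟩
  have hL8 : 8 ≤ L := by rw [hLdef]; exact hn1 n (by omega)
  rw [← hLdef] at hN
  have hn0 : (0 : ℝ) < n := by exact_mod_cast (by omega : 0 < n)
  have hy0' : (0 : ℝ) < (n : ℝ) ^ (1 / 2 : ℝ) := Real.rpow_pos_of_pos hn0 _
  have hypos : (0 : ℝ) < y := lt_of_lt_of_le hy0' hy
  obtain ⟨ℓ, hℓ⟩ : ∃ ℓ, ℓ = Real.log y := ⟨_, rfl⟩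
  have hlL : L / 2 ≤ ℓ := by
    rw [hℓ, hLdef]
    calc Real.log n / 2 = 1 / 2 * Real.log n := by ring
      _ = Real.log ((n : ℝ) ^ (1 / 2 : ℝ)) := (Real.log_rpow hn0 _).symm
      _ ≤ Real.log y := Real.log_le_log hy0' hy
  have hyy : y0 ≤ y := by
    have h1 : (y0 : ℝ) ≤ (n : ℝ) ^ (1 / 2 : ℝ) := by
      have h2 : ((y0 : ℝ) ^ 2) ≤ n := by exact_mod_cast (by omega : y0 ^ 2 ≤ n)
      rw [← Real.sqrt_eq_rpow]
      exact Real.le_sqrt_of_sq_le h2
    exact_mod_cast h1.trans hy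
  obtain ⟨q, hq⟩ : ∃ q, q = 2 * NN k := ⟨_, rfl⟩
  have hNN4 : 4 ∣ NN k := by
    have h : 2 ≤ 5 * 2 ^ (k + 3) - 1 := by
      have : 1 ≤ 2 ^ (k + 3) := Nat.one_le_two_pow
      omega
    exact pow_dvd_pow 2 h
  have hNpos : 0 < NN k := by unfold NN; positivity
  have hq4 : 4 ∣ q := by rw [hq]; exact hNN4.mul_left 2
  have hq0 : 0 < q := by omega
  have hqR : (q : ℝ) ≤ Real.log y ^ 2 := by
    rw [← hℓ, hq]
    push_cast
    nlinarith
  have hcop : ((n - 1) % q).Coprime q := by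
    have h5 : (n - 1).Coprime q := by
      rw [hq]
      have h2 : (n - 1).Coprime 2 := by
        rw [Nat.coprime_two_right]
        exact Nat.odd_iff.2 (by omega)
      apply Nat.Coprime.mul_right h2
      unfold NN
      exact Nat.Coprime.pow_right _ h2
    unfold Nat.Coprime at h5 ⊢
    rw [← Nat.gcd_rec, Nat.gcd_comm]
    exact h5
  obtain ⟨P, hP, hPc, hPy, hPL⟩ := hap y hyy q hq0 hqR ((n - 1) % q) (Nat.mod_lt _ hq0) hcop
  have hPn : P ≡ n - 1 [MOD q] := hPc.trans (Nat.mod_modEq _ _)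
  have hP4 : P % 4 = 3 := by
    have h1 : P ≡ n - 1 [MOD 4] := hPn.of_dvd hq4
    unfold Nat.ModEq at h1
    omega
  refine ⟨P + 1, Pool.Agent.Y341.Had.had_paley_one hP hP4, by omega, ?_, ?_, ?_⟩
  · rw [← hq]
    have h1 : P + 1 ≡ n - 1 + 1 [MOD q] := hPn.add_right 1
    have h2 : n - 1 + 1 = n := by omega
    rwa [h2] at h1
  · rw [← hℓ, pow_one] at hPL
    have h1 : (y : ℝ) / ℓ ≤ y / 2 := by
      apply div_le_div_of_nonneg_left hypos.le (by norm_num) (by linarith)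
    push_cast
    linarith
  · push_cast
    have : (P : ℝ) ≤ y := by exact_mod_cast hPy
    linarith

end Pool.Agent.K1H34.Had2
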