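import Pool.Agent.K1H34.Had2.Step2
import Pool.Agent.K1H34.Had2.Two2
import Pool.Agent.K1H34.Had2.Order2
import Pool.Agent.K1H34.Had2.Core2
import Pool.Agent.K1H34.Had2.Main2
import Pool.Agent.K1H16.Had2.Num2

/-! Partial Hadamard matrices with `n - n ^ (6/7) (log n) ^ 2` rows. -/

set_option autoImplicit false

namespace Pool.Agent.K1H34.Had2

theorem goal2 : S_GOAL2 :=
  t_GOAL2 (t_TWO2 t_STEP2) t_ORDER2 t_CORE2 Pool.Agent.K1H16.Had2.t_NUM2

end Pool.Agent.K1H34.Had2
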