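import Pool.Agent.K1H34.Had2.Stmts2
import Pool.Agent.K1H37.Had2.Step

/-! One step of the construction, with a core as hypothesis (the proof is that of helper37). -/

set_option autoImplicit false

namespace Pool.Agent.K1H34.Had2

open Pool.Agent.K1H34.Had (PHad NN exists_OD phad_main)
open Pool.Agent.H108R3.Had (PUk)
open Pool.Agent.K1H37.Had2 (NN_dvd NN_pos choose_i choose_T)

theorem t_STEP2 : S_STEP2 := by
  intro k v m D r hcore hv5 hv4 hPU hS hm4 hDN hrm hF
  obtain ⟨S, hS⟩ := hS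
  obtain ⟨N, hN⟩ : ∃ N, N = NN k := ⟨_, rfl⟩
  have hN4 : 4 ∣ N := by rw [hN]; exact NN_dvd k
  have hN0 : 0 < N := by rw [hN]; exact NN_pos k
  rw [← hN] at hS hDN
  obtain ⟨w, hw⟩ : ∃ w, v = 4 * w + 1 := ⟨v / 4, by omega⟩
  have hw1 : 1 ≤ w := by omega
  have hND : N * 42 ≤ D := by
    refine le_trans (Nat.mul_le_mul_left N ?_) hDN
    have : 6 * 7 ≤ (v + 1) * (v + 2) := Nat.mul_le_mul (by omega) (by omega)
    omega
  have hD4 : 4 ∣ D := by
    have h1 : 4 ∣ m + D := by rw [hS]; exact hN4.mul_right _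
    exact (Nat.dvd_add_right hm4).1 h1
  obtain ⟨i, e, hi, hie⟩ := choose_i hN4 hN0 hD4 (by omega)
  -- `E` is large
  have hE : (2 * w + 1) * (4 * w + 3) ≤ 2 * e + 1 := by
    have h1 : 2 * N * ((2 * w + 1) * (4 * w + 3)) ≤ 2 * N * (2 * e + 1) := by
      calc 2 * N * ((2 * w + 1) * (4 * w + 3)) = N * ((v + 1) * (v + 2)) := by rw [hw]; ring
        _ ≤ D := hDN
        _ ≤ D + 4 * i := Nat.le_add_right _ _
        _ = _ := hie
    exact Nat.le_of_mul_le_mul_left h1 (by omega)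
  obtain ⟨T, s4, hT, hs4, huT⟩ := choose_T hE
  -- `T ≤ S`
  have hT' : N * ((v + 1) * (2 * T + 1)) = D + 4 * i + 8 * (N * s4) := by
    calc N * ((v + 1) * (2 * T + 1)) = 2 * N * ((2 * w + 1) * (2 * T + 1)) := by rw [hw]; ring
      _ = 2 * N * (2 * e + 1) + 8 * (N * s4) := by rw [hT]; ring
      _ = _ := by rw [← hie]
  have hTS : T ≤ S := by
    by_contra hcon
    have h1 : 2 * S + 3 ≤ 2 * T + 1 := by omega
    have h2 : N * (2 * S + 3) ≤ N * (2 * T + 1) := Nat.mul_le_mul_left N h1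
    have h3 : D + 2 * N ≤ N * (2 * T + 1) := by
      have : N * (2 * S + 3) = N * (2 * S + 1) + 2 * N := by ring
      omega
    have h4 : (v + 1) * (D + 2 * N) ≤ (v + 1) * (N * (2 * T + 1)) := Nat.mul_le_mul_left _ h3
    have h5 : (v + 1) * (N * (2 * T + 1)) = N * ((v + 1) * (2 * T + 1)) := by ring
    rw [h5, hT'] at h4
    have h6 : 8 * (N * s4) ≤ 8 * (N * (2 * w + 1)) := by
      have := Nat.mul_le_mul_left N hs4.le
      omega
    have h7 : 8 * (N * (2 * w + 1)) = 16 * (N * w) + 8 * N := by ring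
    have h8 : (v + 1) * (D + 2 * N) = v * D + D + 2 * (v * N) + 2 * N := by ring
    have h9 : v * N = 4 * (N * w) + N := by rw [hw]; ring
    have h10 : v * D = 4 * (w * D) + D := by rw [hw]; ring
    have h11 : w * (N * 42) ≤ w * D := Nat.mul_le_mul_left w hND
    have h12 : w * (N * 42) = 42 * (N * w) := by ring
    have h13 : 0 < N * w := Nat.mul_pos hN0 hw1
    have h14 : N ≤ N * w := Nat.le_mul_of_pos_right _ hw1
    omega
  have hs4T : s4 ≤ T := by omega
  have hSm : S ≤ m + D := by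
    rw [hS]
    nlinarith
  obtain ⟨sb, hsb⟩ := Nat.exists_eq_add_of_le hTS
  obtain ⟨s3, hs3⟩ := Nat.exists_eq_add_of_le hs4T
  obtain ⟨O⟩ := exists_OD (i := i) (hPU sb (by omega)) (hPU s3 (by omega)) (hPU s4 (by omega))
    (by rw [← hN]; exact hi)
  rw [← hN] at O
  obtain ⟨B, hB⟩ := hcore
  have hM : N * (2 * (sb + s3 + s4) + 1) = m + D := by
    rw [hS]
    congr 2
    omega
  have hSZ : (m : ℤ) + D = N * (2 * (T + sb) + 1) := by
    rw [hsb] at hS
    exact_mod_cast hS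
  have hTZ : (N : ℤ) * ((v + 1) * (2 * T + 1)) = D + 4 * i + 8 * (N * s4) := by
    exact_mod_cast hT'
  have hs3Z : (T : ℤ) = s4 + s3 := by exact_mod_cast hs3
  have h1 := phad_main O rfl hB (r := r) (m := m) (by
    simp only [Matrix.cons_val]
    rw [hs3Z] at hSZ hTZ
    linear_combination hSZ + hTZ) hF (by rw [hM]; exact hrm)
  rw [hM] at h1
  exact h1

end Pool.Agent.K1H34.Had2
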