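import Pool.Agent.K1H34.Had.PH
import Pool.Agent.K1H34.Had.Growth

/-!
# Partial Hadamard matrices with a power saving: interface

Goal: `∃ c > 0`, for all large `n` divisible by `4` there is a partial Hadamard matrix with `n`
columns and at least `n - n ^ (1 - c)` rows.
-/

set_option autoImplicit false

namespace Pool.Agent.K1H34.Had2

open Pool.Agent.K1H34.Had (PHad NN)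
open Pool.Agent.H108R3.Had (PUk)
open Pool.Agent.TH394 (HadOrder)

/-- PIECE PS1 (one step). -/
def S_STEP : Prop := ∀ k v m D r : ℕ, IsPrimePow v → v % 4 = 1 → (∀ s ≤ m + D, PUk k s) →
  (∃ S : ℕ, m + D = NN k * (2 * S + 1)) → 4 ∣ m → NN k * ((v + 1) * (v + 2)) ≤ D → r ≤ m + D →
  PHad r m → PHad (v * r) (v * (m + D) + m)

/-- PIECE PS2 (two steps). -/
def S_TWO : Prop := ∀ k v₁ v₂ h n : ℕ, IsPrimePow v₁ → v₁ % 4 = 1 → IsPrimePow v₂ → v₂ % 4 = 1 →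
  v₁.Coprime v₂ → v₁ ≤ v₂ → (∀ s ≤ n, PUk k s) → HadOrder h → 4 ∣ h → h ≡ n [MOD 2 * NN k] →
  (v₁ + 1) * (v₂ + 1) * h + 30 * NN k * v₁ * v₂ ^ 3 ≤ n → PHad (v₁ * v₂ * h) n

/-- PIECE PS3 (a Paley order in the right class, from `Pool.Agent.K1H34.Had.prime_ap`). -/
def S_ORDER : Prop := ∃ n₀ : ℕ, ∀ n k y : ℕ, n₀ ≤ n → 4 ∣ n →
  ((NN k : ℕ) : ℝ) ≤ Real.log n → (n : ℝ) ^ (3 / 5 : ℝ) ≤ y →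
  ∃ h : ℕ, HadOrder h ∧ 4 ∣ h ∧ h ≡ n [MOD 2 * NN k] ∧ (y : ℝ) / 2 ≤ h ∧ (h : ℝ) ≤ y + 1

/-- PIECE PS4 (a square of a prime just below a given number, from Hoheisel's theorem
`Pool.Agent.H295R3.D.hoheisel`). -/
def S_SQ : Prop := ∃ d : ℝ, 0 < d ∧ d < 1 ∧ ∃ Z₀ : ℝ, 1 ≤ Z₀ ∧ ∀ Z : ℝ, Z₀ ≤ Z →
  ∃ q : ℕ, q.Prime ∧ 3 ≤ q ∧ (q : ℝ) ^ 2 ≤ Z ∧ Z - Z ^ (1 - d) ≤ (q : ℝ) ^ 2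

/-- PIECE PS5 (the choice of the parameters: pure real analysis). Numbers `v₁ ≤ v₂`, `h` as
wanted. -/
def S_NUM : Prop := ∀ d : ℝ, 0 < d → d < 1 → ∀ Z₀ : ℝ, 1 ≤ Z₀ → ∃ c : ℝ, 0 < c ∧ ∃ n₀ : ℕ,
  ∀ n : ℕ, n₀ ≤ n → ∀ (N q₁ y : ℕ), 1 ≤ N → (N : ℝ) ≤ Real.log n →
    (n : ℝ) ^ (1 / 40 : ℝ) ≤ q₁ → (q₁ : ℝ) ≤ 3 * (n : ℝ) ^ (1 / 40 : ℝ) →
    (n : ℝ) ^ (7 / 10 : ℝ) ≤ y → (y : ℝ) ≤ 2 * (n : ℝ) ^ (7 / 10 : ℝ) →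
    ∀ h : ℕ, (y : ℝ) / 2 ≤ h → (h : ℝ) ≤ y + 1 →
      ∃ Z : ℝ, Z₀ ≤ Z ∧ (∀ q : ℕ, Z - Z ^ (1 - d) ≤ (q : ℝ) ^ 2 → (q : ℝ) ^ 2 ≤ Z →
        q₁ < q ∧ (q₁ ^ 2 + 1) * (q ^ 2 + 1) * h + 30 * N * q₁ ^ 2 * (q ^ 2) ^ 3 ≤ n ∧
        (n : ℝ) - (n : ℝ) ^ (1 - c) ≤ (q₁ : ℝ) ^ 2 * (q : ℝ) ^ 2 * h)

/-- the goal -/
def S_GOAL : Prop := ∃ c : ℝ, 0 < c ∧ ∃ n₀ : ℕ, ∀ n : ℕ, n₀ ≤ n → 4 ∣ n →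
  ∃ r : ℕ, (n : ℝ) - (n : ℝ) ^ (1 - c) ≤ r ∧ PHad r n

end Pool.Agent.K1H34.Had2
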