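import Pool.Agent.K1H34.Had2.Stmts

/-!
# Partial Hadamard matrices with `n - n ^ (6/7) (log n) ^ 2` rows: interface

Second version: cores of order `a ^ 2` with `a ≡ -1` modulo a tiny power of two (no primes in short
intervals).
-/

set_option autoImplicit false

namespace Pool.Agent.K1H34.Had2

open Pool.Agent.K1H34.Had (PHad NN)
open Pool.Agent.H108R3.Had (PUk)
open Pool.Agent.TH394 (HadOrder)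

/-- there is a symmetric core of order `v` -/
def Core (v : ℕ) : Prop := ∃ B : Fin v → Fin v → ℤ, Pool.Agent.Y342.SK.IsCoreG 1 B

/-- one step, with cores -/
def S_STEP2 : Prop := ∀ k v m D r : ℕ, Core v → 5 ≤ v → v % 4 = 1 → (∀ s ≤ m + D, PUk k s) →
  (∃ S : ℕ, m + D = NN k * (2 * S + 1)) → 4 ∣ m → NN k * ((v + 1) * (v + 2)) ≤ D → r ≤ m + D →
  PHad r m → PHad (v * r) (v * (m + D) + m)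

/-- two steps, with cores -/
def S_TWO2 : Prop := ∀ k v₁ v₂ h n : ℕ, Core v₁ → 5 ≤ v₁ → v₁ % 4 = 1 → Core v₂ → 5 ≤ v₂ →
  v₂ % 4 = 1 → v₁.Coprime v₂ → (∀ s ≤ n, PUk k s) → HadOrder h → 4 ∣ h → h ≡ n [MOD 2 * NN k] →
  (v₁ + 1) * (v₂ + 1) * h + 30 * NN k * (v₁ * (v₂ ^ 3 + v₁ * v₂ + v₁ ^ 2)) ≤ n →
  PHad (v₁ * v₂ * h) n

/-- a Paley order in the right class -/
def S_ORDER2 : Prop := ∃ n₀ : ℕ, ∀ n k y : ℕ, n₀ ≤ n → 4 ∣ n →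
  ((NN k : ℕ) : ℝ) ≤ Real.log n → (n : ℝ) ^ (1 / 2 : ℝ) ≤ y →
  ∃ h : ℕ, HadOrder h ∧ 4 ∣ h ∧ h ≡ n [MOD 2 * NN k] ∧ (y : ℝ) / 2 ≤ h ∧ (h : ℝ) ≤ y + 1

/-- squares of the numbers which are `-1` modulo a tiny power of two are orders of cores -/
def S_CORE2 : Prop := ∃ n₀ : ℕ, ∀ n : ℕ, n₀ ≤ n → ∃ t : ℕ, 2 ≤ t ∧ (2 : ℝ) ^ t ≤ Real.log n ∧
  ∀ v ≤ n, 2 ^ t ∣ v + 1 → Core (v ^ 2)

/-- PIECE PS6 (the choice of `a`: real analysis). -/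
def S_NUM2 : Prop := ∃ n₀ : ℕ, ∀ n : ℕ, n₀ ≤ n → ∀ N K b h : ℕ, 1 ≤ N → (N : ℝ) ≤ Real.log n →
  1 ≤ K → (K : ℝ) ≤ Real.log n → b.Prime → (n : ℝ) ^ (1 / 14 : ℝ) ≤ b →
  (b : ℝ) ≤ 3 * (n : ℝ) ^ (1 / 14 : ℝ) → (n : ℝ) ^ (4 / 7 : ℝ) / 2 ≤ h →
  (h : ℝ) ≤ 3 * (n : ℝ) ^ (4 / 7 : ℝ) →
    ∃ a : ℕ, 3 ≤ a ∧ a ≤ n ∧ K ∣ a + 1 ∧ ¬ b ∣ a ∧
      (a ^ 2 + 1) * (b ^ 2 + 1) * h +
        30 * N * (a ^ 2 * ((b ^ 2) ^ 3 + a ^ 2 * b ^ 2 + (a ^ 2) ^ 2)) ≤ n ∧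
      (n : ℝ) - (n : ℝ) ^ (6 / 7 : ℝ) * Real.log n ^ 2 ≤ (a : ℝ) ^ 2 * (b : ℝ) ^ 2 * h

/-- the goal -/
def S_GOAL2 : Prop := ∃ n₀ : ℕ, ∀ n : ℕ, n₀ ≤ n → 4 ∣ n →
  ∃ r : ℕ, (n : ℝ) - (n : ℝ) ^ (6 / 7 : ℝ) * Real.log n ^ 2 ≤ r ∧ PHad r n

end Pool.Agent.K1H34.Had2
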